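import Mathlib
import Pool.Agent.helper7.JT.Defs

/-!
# Project JT (MP_ebc808_nt), module LOW: preliminaries
-/

set_option autoImplicit false

open Finset

namespace Pool.Agent.helper7.JT

open OC (J hs cs PA P5 Exc)

section
variable {ι : Type} [Fintype ι] [DecidableEq ι] {L : ι → Finset ℕ} {K : ι → ℕ}

lemma LOW_mem {T : ι → Finset ℕ} : T ∈ Famj L K ↔ ∀ i, T i ⊆ L i ∧ (T i).card = K i := by
  simp [Famj, Fintype.mem_piFinset, mem_powersetCard]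

variable {D₀ : ℕ} {sh : ι → ℕ} {T : ι → Finset ℕ}

omit [DecidableEq ι] in
lemma LOW_dvd_prj (hT : ∀ i, ∀ ℓ ∈ T i, ℓ.Prime) {ℓ : ℕ} (hℓ : ℓ.Prime) :
    ℓ ∣ prj T ↔ ∃ i, ℓ ∈ T i := by
  unfold prj
  constructor
  · intro h
    obtain ⟨i, -, hi⟩ := (hℓ.prime.dvd_finsetProd_iff _).1 h
    obtain ⟨q, hq, hq'⟩ := (hℓ.prime.dvd_finsetProd_iff _).1 hi
    exact ⟨i, ((Nat.prime_dvd_prime_iff_eq hℓ (hT i q hq)).1 hq') ▸ hq⟩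
  · rintro ⟨i, hi⟩
    exact (dvd_prod_of_mem _ hi).trans (dvd_prod_of_mem (fun i => ∏ ℓ ∈ T i, ℓ) (mem_univ i))

omit [DecidableEq ι] in
lemma LOW_prj_eq (hdis : ∀ i j, i ≠ j → Disjoint (T i) (T j)) :
    prj T = ∏ ℓ ∈ univ.biUnion T, ℓ := by
  unfold prj
  rw [prod_biUnion]
  intro i _ j _ hij
  exact hdis i j hij

omit [DecidableEq ι] in
lemma LOW_prj_dvd (hT : ∀ i, ∀ ℓ ∈ T i, ℓ.Prime) (hdis : ∀ i j, i ≠ j → Disjoint (T i) (T j))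
    {n : ℕ} (h : ∀ i, ∀ ℓ ∈ T i, ℓ ∣ n) : prj T ∣ n := by
  rw [LOW_prj_eq hdis]
  refine prod_primes_dvd n ?_ ?_
  · intro p hp
    obtain ⟨i, -, hi⟩ := mem_biUnion.1 hp
    exact (hT i p hi).prime
  · intro p hp
    obtain ⟨i, -, hi⟩ := mem_biUnion.1 hp
    exact h i p hi

omit [DecidableEq ι] in
lemma LOW_prj_pos (hT : ∀ i, ∀ ℓ ∈ T i, ℓ.Prime) : 0 < prj T :=
  prod_pos fun i _ => prod_pos fun ℓ hℓ => (hT i ℓ hℓ).pos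

omit [DecidableEq ι] in
lemma LOW_squarefree (hT : ∀ i, ∀ ℓ ∈ T i, ℓ.Prime) (hdis : ∀ i j, i ≠ j → Disjoint (T i) (T j)) :
    Squarefree (prj T) := by
  rw [LOW_prj_eq hdis]
  have h1 : ∀ p ∈ univ.biUnion T, p.Prime := by
    intro p hp
    obtain ⟨i, -, hi⟩ := mem_biUnion.1 hp
    exact hT i p hi
  refine Finset.squarefree_prod_of_pairwise_isCoprime ?_ ?_
  · intro a ha b hb hab
    rw [Function.onFun, ← Nat.coprime_iff_isRelPrime]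
    exact (Nat.coprime_primes (h1 a ha) (h1 b hb)).mpr hab
  · intro ℓ hℓ
    exact (h1 ℓ hℓ).prime.squarefree

lemma LOW_inj (hL : ∀ i, ∀ ℓ ∈ L i, ℓ.Prime) (hdis : ∀ i j, i ≠ j → Disjoint (L i) (L j))
    {T T' : ι → Finset ℕ} (hT : T ∈ Famj L K) (hT' : T' ∈ Famj L K) (h : prj T = prj T') :
    T = T' := by
  have key : ∀ {T T' : ι → Finset ℕ}, T ∈ Famj L K → T' ∈ Famj L K → prj T = prj T' →
      ∀ i, T i ⊆ T' i := by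
    intro T T' hT hT' h i ℓ hℓ
    rw [LOW_mem] at hT hT'
    have h1 : ℓ.Prime := hL i ℓ ((hT i).1 hℓ)
    have h2 : ℓ ∣ prj T' := h ▸ (LOW_dvd_prj (fun i ℓ hℓ => hL i ℓ ((hT i).1 hℓ)) h1).2 ⟨i, hℓ⟩
    obtain ⟨j, hj⟩ := (LOW_dvd_prj (fun i ℓ hℓ => hL i ℓ ((hT' i).1 hℓ)) h1).1 h2
    by_cases hij : i = j
    · exact hij ▸ hj
    · exact absurd ((hT' j).1 hj) (Finset.disjoint_left.1 (hdis i j hij) ((hT i).1 hℓ))
  funext i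
  exact subset_antisymm (key hT hT' h i) (key hT' hT h.symm i)

/-- the class modulo `prj T` -/
lemma LOW_class (hT : ∀ i, ∀ ℓ ∈ T i, ℓ.Prime ∧ ¬ ℓ ∣ D₀ ∧ 8 * sh i < ℓ) (hsh : ∀ i, 1 ≤ sh i)
    (hdis : ∀ i j, i ≠ j → Disjoint (T i) (T j)) :
    ∃ c : ℕ, Nat.Coprime c (prj T) ∧ ∀ i, ∀ ℓ ∈ T i, ℓ ∣ D₀ * c + 8 * sh i := by
  classical
  have h1 : ∀ i, ∀ ℓ ∈ T i, ∃ a : ℕ, ℓ ∣ D₀ * a + 8 * sh i := by
    intro i ℓ hℓ
    obtain ⟨hp, hD, hs⟩ := hT i ℓ hℓ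
    have : Fact ℓ.Prime := ⟨hp⟩
    have hD' : (D₀ : ZMod ℓ) ≠ 0 := fun h => hD ((ZMod.natCast_eq_zero_iff _ _).1 h)
    refine ⟨(-(8 * sh i : ZMod ℓ) / D₀).val, ?_⟩
    rw [← ZMod.natCast_eq_zero_iff]
    push_cast
    rw [ZMod.natCast_val, ZMod.cast_id', id, mul_div_cancel₀ _ hD']
    ring
  choose! a ha using h1
  let t : Finset (Σ _ : ι, ℕ) := univ.sigma T
  have hpp : Set.Pairwise (t : Set (Σ _ : ι, ℕ))
      (Function.onFun Nat.Coprime (fun x : (Σ _ : ι, ℕ) => x.2)) := by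
    rintro ⟨i, ℓ⟩ h1 ⟨j, q⟩ h2 h3
    have h1' : ℓ ∈ T i := (mem_sigma.1 (mem_coe.1 h1)).2
    have h2' : q ∈ T j := (mem_sigma.1 (mem_coe.1 h2)).2
    refine (Nat.coprime_primes (hT i ℓ h1').1 (hT j q h2').1).2 ?_
    intro h
    by_cases hij : i = j
    · apply h3
      subst hij
      have h' : ℓ = q := h
      subst h'
      rfl
    · have h' : ℓ = q := h
      subst h'
      exact Finset.disjoint_left.1 (hdis i j hij) h1' h2'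
  obtain ⟨c, hc⟩ := Nat.chineseRemainderOfFinset (fun x : (Σ _ : ι, ℕ) => a x.1 x.2)
    (fun x => x.2) t (by
      rintro ⟨i, ℓ⟩ h1
      exact (hT i ℓ (mem_sigma.1 h1).2).1.ne_zero) hpp
  have h2 : ∀ i, ∀ ℓ ∈ T i, ℓ ∣ D₀ * c + 8 * sh i := by
    intro i ℓ hℓ
    have h3 : c ≡ a i ℓ [MOD ℓ] := hc ⟨i, ℓ⟩ (mem_sigma.2 ⟨mem_univ _, hℓ⟩)
    have h4 : D₀ * c + 8 * sh i ≡ D₀ * a i ℓ + 8 * sh i [MOD ℓ] := (h3.mul_left D₀).add_right _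
    exact (h4.dvd_iff dvd_rfl).2 (ha i ℓ hℓ)
  refine ⟨c, ?_, h2⟩
  rw [Nat.coprime_iff_gcd_eq_one]
  by_contra h3
  obtain ⟨p, hp, hpd⟩ := Nat.exists_prime_and_dvd h3
  obtain ⟨i, hi⟩ := (LOW_dvd_prj (fun i ℓ hℓ => (hT i ℓ hℓ).1) hp).1
    (hpd.trans (Nat.gcd_dvd_right _ _))
  have h4 : p ∣ 8 * sh i := by
    have h5 := h2 i p hi
    exact (Nat.dvd_add_right (Dvd.dvd.mul_left (hpd.trans (Nat.gcd_dvd_left _ _)) _)).1 h5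
  have h5 := Nat.le_of_dvd (by have := hsh i; omega) h4
  have h6 := (hT i p hi).2.2
  omega

omit [DecidableEq ι] in
/-- the class gives the divisibilities -/
lemma LOW_of_mod (hT : ∀ i, ∀ ℓ ∈ T i, ℓ.Prime) {c w : ℕ}
    (hc : ∀ i, ∀ ℓ ∈ T i, ℓ ∣ D₀ * c + 8 * sh i) (h : w % prj T = c % prj T) :
    ∀ i, ∀ ℓ ∈ T i, ℓ ∣ D₀ * w + 8 * sh i := by
  intro i ℓ hℓ
  have h1 : w ≡ c [MOD ℓ] := Nat.ModEq.of_dvd ((LOW_dvd_prj hT (hT i ℓ hℓ)).2 ⟨i, hℓ⟩) h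
  exact (((h1.mul_left D₀).add_right (8 * sh i)).dvd_iff dvd_rfl).2 (hc i ℓ hℓ)

omit [DecidableEq ι] in
/-- with one square, the class is fixed modulo `prj T * ℓ` -/
lemma LOW_sq (hT : ∀ i, ∀ ℓ ∈ T i, ℓ.Prime ∧ ¬ ℓ ∣ D₀)
    (hdis : ∀ i j, i ≠ j → Disjoint (T i) (T j)) {p q q' : ℕ} {i : ι} {ℓ : ℕ} (hℓ : ℓ ∈ T i)
    (hp : Nat.Coprime p (prj T)) (h1 : p * q % prj T = p * q' % prj T)
    (h2 : ℓ ^ 2 ∣ D₀ * (p * q) + 8 * sh i) (h3 : ℓ ^ 2 ∣ D₀ * (p * q') + 8 * sh i) :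
    q % (prj T * ℓ) = q' % (prj T * ℓ) := by
  have hT' : ∀ i, ∀ ℓ ∈ T i, ℓ.Prime := fun i ℓ h => (hT i ℓ h).1
  have hℓp := hT' i ℓ hℓ
  have hd : ℓ ∣ prj T := (LOW_dvd_prj hT' hℓp).2 ⟨i, hℓ⟩
  have h4 : q ≡ q' [MOD prj T] :=
    Nat.ModEq.cancel_left_of_coprime (by rw [Nat.gcd_comm]; exact hp) h1
  have h5 : q ≡ q' [MOD ℓ ^ 2] := by
    have h6 : D₀ * (p * q) + 8 * sh i ≡ D₀ * (p * q') + 8 * sh i [MOD ℓ ^ 2] := by
      have e1 := (Nat.modEq_zero_iff_dvd).2 h2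
      have e2 := (Nat.modEq_zero_iff_dvd).2 h3
      exact e1.trans e2.symm
    have h7 : D₀ * p * q ≡ D₀ * p * q' [MOD ℓ ^ 2] := by
      rw [mul_assoc, mul_assoc]
      exact Nat.ModEq.add_right_cancel' _ h6
    refine Nat.ModEq.cancel_left_of_coprime (c := D₀ * p) ?_ h7
    rw [← Nat.coprime_iff_gcd_eq_one]
    refine Nat.Coprime.pow_left 2 ?_
    refine Nat.Coprime.mul_right ?_ ?_
    · exact (Nat.Prime.coprime_iff_not_dvd hℓp).2 (hT i ℓ hℓ).2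
    · exact (hp.coprime_dvd_right hd).symm
  obtain ⟨D', hD'⟩ := hd
  have hsf := LOW_squarefree hT' hdis
  have h8 : Nat.Coprime D' ℓ := by
    rw [hD'] at hsf
    exact ((Nat.squarefree_mul_iff.1 hsf).1).symm
  have h9 : q ≡ q' [MOD D'] := h4.of_dvd ⟨ℓ, by rw [hD', mul_comm]⟩
  have h10 : q ≡ q' [MOD D' * ℓ ^ 2] :=
    (Nat.modEq_and_modEq_iff_modEq_mul (Nat.Coprime.pow_right 2 h8)).1 ⟨h9, h5⟩
  have h11 : prj T * ℓ = D' * ℓ ^ 2 := by rw [hD']; ring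
  rw [h11]
  exact h10

end

/-- numerical facts -/
lemma LOW_num (x₀ : ℕ) : ∃ X₀ : ℕ, ∀ X : ℕ, X₀ ≤ X → ∀ D₀ Dm j : ℕ, 1 ≤ D₀ → D₀ ≤ Dm →
    Dm ^ 32 ≤ X → Nat.log 2 X / 4 ≤ j → j < Nat.log 2 X / 3 →
    x₀ ≤ 2 ^ j ∧ x₀ ≤ X / (2 ^ (j + 2) * D₀) ∧ X ≤ (X / (2 ^ (j + 2) * D₀)) ^ 2 ∧
    Dm ≤ 2 ^ j ∧ Dm ^ 2 ≤ 2 * 2 ^ j ∧ (2 * 2 ^ j) ^ 3 ≤ X ∧ 1 ≤ X / (2 ^ (j + 2) * D₀) ∧
    (X : ℝ) ≤ 2 ^ (j + 3) * D₀ * (X / (2 ^ (j + 2) * D₀) : ℕ) := by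
  refine ⟨(2 * x₀) ^ 4 + x₀ ^ 2 + 2 ^ 16, fun X hX D₀ Dm j hD₀ hDm h32 hj1 hj2 => ?_⟩
  have hX0 : X ≠ 0 := by
    have : 0 < 2 ^ 16 := by norm_num
    omega
  have hX16 : 2 ^ 16 ≤ X := le_trans (by omega) hX
  have hL1 := Nat.pow_log_le_self 2 hX0
  have hL2 := Nat.lt_pow_succ_log_self (b := 2) (by norm_num) X
  set L := Nat.log 2 X with hL
  have h4 : X < (2 * 2 ^ j) ^ 4 := by
    refine hL2.trans_le ?_
    have : (2 * 2 ^ j) ^ 4 = 2 ^ (4 * j + 4) := by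
      rw [← pow_succ', ← pow_mul]; congr 1; ring
    rw [this]
    exact Nat.pow_le_pow_right (by norm_num) (by omega)
  have h3 : (2 * 2 ^ j) ^ 3 ≤ X := by
    refine le_trans ?_ hL1
    have : (2 * 2 ^ j) ^ 3 = 2 ^ (3 * j + 3) := by
      rw [← pow_succ', ← pow_mul]; congr 1; ring
    rw [this]
    exact Nat.pow_le_pow_right (by norm_num) (by omega)
  have h8 : Dm ^ 8 < 2 * 2 ^ j := by
    have : (Dm ^ 8) ^ 4 < (2 * 2 ^ j) ^ 4 := by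
      rw [← pow_mul]
      exact lt_of_le_of_lt h32 h4
    exact lt_of_pow_lt_pow_left₀ 4 (by positivity) this
  set q := 2 ^ (j + 2) * D₀ with hq
  have hq0 : 0 < q := by positivity
  set x := X / q with hx
  have h5 : X < q * (x + 1) := Nat.lt_mul_div_succ X hq0
  clear_value x
  clear hx
  have hxx : X ≤ x ^ 2 := by
    by_contra hcon
    push Not at hcon
    have e1 : (x + 1) ^ 2 ≤ 4 * X := by nlinarith [sq_nonneg ((x : ℤ) - 1), Nat.zero_le x]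
    have e2 : q ^ 96 ≤ 2 ^ 96 * (X ^ 32 * X ^ 3) := by
      have : q = 2 * ((2 * 2 ^ j) * D₀) := by rw [hq]; ring
      rw [this, mul_pow, mul_pow (2 * 2 ^ j)]
      refine Nat.mul_le_mul le_rfl (Nat.mul_le_mul ?_ ?_)
      · calc (2 * 2 ^ j) ^ 96 = ((2 * 2 ^ j) ^ 3) ^ 32 := by rw [← pow_mul]
          _ ≤ X ^ 32 := Nat.pow_le_pow_left h3 32
      · calc D₀ ^ 96 = (D₀ ^ 32) ^ 3 := by rw [← pow_mul]
          _ ≤ X ^ 3 := Nat.pow_le_pow_left ((Nat.pow_le_pow_left hDm 32).trans h32) 3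
    have e3 : (x + 1) ^ 96 ≤ (4 * X) ^ 48 := by
      calc (x + 1) ^ 96 = ((x + 1) ^ 2) ^ 48 := by rw [← pow_mul]
        _ ≤ _ := Nat.pow_le_pow_left e1 48
    have e4 : X ^ 96 ≤ 2 ^ 96 * (X ^ 32 * X ^ 3) * (4 * X) ^ 48 := by
      calc X ^ 96 ≤ (q * (x + 1)) ^ 96 := Nat.pow_le_pow_left h5.le 96
        _ = q ^ 96 * (x + 1) ^ 96 := mul_pow _ _ _
        _ ≤ _ := Nat.mul_le_mul e2 e3
    have e5 : 2 ^ 96 * (X ^ 32 * X ^ 3) * (4 * X) ^ 48 = 2 ^ 192 * X ^ 83 := by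
      rw [mul_pow]; ring
    have e6 : X ^ 96 = X ^ 13 * X ^ 83 := by ring
    rw [e5, e6] at e4
    have e7 : X ^ 13 ≤ 2 ^ 192 := Nat.le_of_mul_le_mul_right e4 (by positivity)
    have e8 : (2 ^ 16) ^ 13 ≤ X ^ 13 := Nat.pow_le_pow_left hX16 13
    have e9 : (2 ^ 16) ^ 13 ≤ 2 ^ 192 := e8.trans e7
    norm_num at e9
  have hx1 : 1 ≤ x := by
    by_contra hcon
    have h0 : x = 0 := by omega
    rw [h0] at hxx
    norm_num at hxx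
    omega
  refine ⟨?_, ?_, hxx, ?_, ?_, h3, hx1, ?_⟩
  · have : (2 * x₀) ^ 4 ≤ (2 * 2 ^ j) ^ 4 := by
      have : (2 * x₀) ^ 4 ≤ X := le_trans (by omega) hX
      exact this.trans h4.le
    have := (pow_le_pow_iff_left₀ (by positivity) (by positivity) (by norm_num)).1 this
    omega
  · have : x₀ ^ 2 ≤ x ^ 2 := by
      have : x₀ ^ 2 ≤ X := le_trans (by omega) hX
      exact this.trans hxx
    exact (pow_le_pow_iff_left₀ (by positivity) (by positivity) (by norm_num)).1 this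
  · by_contra hcon
    push Not at hcon
    have h1 : 1 ≤ 2 ^ j := Nat.one_le_two_pow
    have h2 : 2 ≤ Dm := by omega
    have h6 : Dm ^ 8 ≥ 2 * Dm := by
      calc 2 * Dm ≤ Dm * Dm := Nat.mul_le_mul_right _ h2
        _ = Dm ^ 2 := by ring
        _ ≤ Dm ^ 8 := Nat.pow_le_pow_right (by omega) (by norm_num)
    omega
  · have : Dm ^ 2 ≤ Dm ^ 8 := Nat.pow_le_pow_right (by omega) (by norm_num)
    omega
  · have h6 : X ≤ q * (2 * x) := h5.le.trans (Nat.mul_le_mul_left _ (by omega))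
    have h7 : q * (2 * x) = 2 ^ (j + 3) * D₀ * x := by rw [hq]; ring
    rw [h7] at h6
    exact_mod_cast h6

end Pool.Agent.helper7.JT
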