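import Mathlib
import Pool.Agent.helper91.JT.LOW0
import Pool.Agent.helper8.JT.BIL
import Pool.Agent.helper8.JT.GB
import Pool.Agent.helper51.JT.BT
import Pool.Agent.helper29.OC.PIAP

/-!
# Project JT (MP_ebc808_nt), module LOW: one dyadic scale
-/

set_option autoImplicit false

open Finset

namespace Pool.Agent.helper7.JT

open OC (J hs cs PA P5 Exc)

section
variable {ι : Type} [Fintype ι] {D₀ : ℕ} {sh : ι → ℕ} {T : ι → Finset ℕ}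

/-- the bad `q` for one prime -/
lemma LOW_bad1 (C : ℝ) (hC : 0 ≤ C) (x₀ : ℕ)
    (hbt : ∀ x : ℕ, x₀ ≤ x → ∀ q c : ℕ, 1 ≤ q → q ^ 2 ≤ x →
      Nat.Coprime c q → (((Icc 1 x).filter fun p => p.Prime ∧ p % q = c % q).card : ℝ)
      ≤ C * x / (Nat.totient q * Real.log x))
    (hT : ∀ i, ∀ ℓ ∈ T i, ℓ.Prime ∧ ¬ ℓ ∣ D₀)
    (hdis : ∀ i j, i ≠ j → Disjoint (T i) (T j)) (P₂ : Finset ℕ) (Dm N₂ : ℕ)
    (hP₂ : ∀ q ∈ P₂, q.Prime ∧ Dm < q ∧ q ≤ N₂) (hN : x₀ ≤ N₂) (hDm : prj T ≤ Dm)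
    (hN4 : Dm ^ 4 ≤ N₂) (hN1 : 1 ≤ N₂) (p c : ℕ) (hp : Nat.Coprime p (prj T)) (i : ι) (ℓ : ℕ)
    (hℓ : ℓ ∈ T i) :
    ((P₂.filter fun q => p * q % prj T = c % prj T ∧ ℓ ^ 2 ∣ D₀ * (p * q) + 8 * sh i).card : ℝ)
      ≤ C * N₂ / (Nat.totient (prj T) * Real.log N₂) * (1 / ℓ) := by
  have hT' : ∀ i, ∀ ℓ ∈ T i, ℓ.Prime := fun i ℓ h => (hT i ℓ h).1
  have hD0 := LOW_prj_pos hT'
  have hℓp := hT' i ℓ hℓ
  have hℓd : ℓ ∣ prj T := (LOW_dvd_prj hT' hℓp).2 ⟨i, hℓ⟩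
  have hlog : 0 ≤ Real.log N₂ := Real.log_nonneg (by exact_mod_cast hN1)
  rcases Finset.eq_empty_or_nonempty
    (P₂.filter fun q => p * q % prj T = c % prj T ∧ ℓ ^ 2 ∣ D₀ * (p * q) + 8 * sh i) with he | he
  · rw [he]
    simp only [card_empty, Nat.cast_zero]
    positivity
  · obtain ⟨q₁, hq₁⟩ := he
    rw [mem_filter] at hq₁
    obtain ⟨hq₁, hq₂, hq₃⟩ := hq₁
    have hsub : (P₂.filter fun q => p * q % prj T = c % prj T ∧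
        ℓ ^ 2 ∣ D₀ * (p * q) + 8 * sh i) ⊆
        (Icc 1 N₂).filter fun q => q.Prime ∧ q % (prj T * ℓ) = q₁ % (prj T * ℓ) := by
      intro q hq
      rw [mem_filter] at hq
      obtain ⟨h1, h2, h3⟩ := hq
      rw [mem_filter, mem_Icc]
      refine ⟨⟨(hP₂ q h1).1.one_le, (hP₂ q h1).2.2⟩, (hP₂ q h1).1, ?_⟩
      exact LOW_sq hT hdis hℓ hp (h2.trans hq₂.symm) h3 hq₃
    have hlt : ℓ ≤ Dm := (Nat.le_of_dvd hD0 hℓd).trans hDm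
    have hcop : Nat.Coprime q₁ (prj T * ℓ) := by
      obtain ⟨h1, h2, -⟩ := hP₂ q₁ hq₁
      refine Nat.Coprime.mul_right ?_ ?_
      · exact (Nat.Prime.coprime_iff_not_dvd h1).2 fun h => by
          have := Nat.le_of_dvd hD0 h; omega
      · exact (Nat.Prime.coprime_iff_not_dvd h1).2 fun h => by
          have := Nat.le_of_dvd hℓp.pos h; omega
    have h1 := hbt N₂ hN (prj T * ℓ) q₁ (Nat.mul_pos hD0 hℓp.pos) (by
      refine le_trans ?_ hN4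
      calc (prj T * ℓ) ^ 2 ≤ (Dm * Dm) ^ 2 := Nat.pow_le_pow_left (Nat.mul_le_mul hDm hlt) 2
        _ = Dm ^ 4 := by ring) hcop
    have h2 : Nat.totient (prj T * ℓ) = ℓ * Nat.totient (prj T) := by
      rw [mul_comm]
      exact Nat.totient_mul_of_prime_of_dvd hℓp hℓd
    rw [h2] at h1
    have h3 : (((P₂.filter fun q => p * q % prj T = c % prj T ∧
        ℓ ^ 2 ∣ D₀ * (p * q) + 8 * sh i).card : ℕ) : ℝ) ≤ _ :=
      (Nat.cast_le.2 (card_le_card hsub)).trans h1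
    refine h3.trans (le_of_eq ?_)
    push_cast
    rw [div_mul_div_comm, mul_one]
    congr 1
    ring



open Classical in
/-- the bad pairs -/
lemma LOW_bad (C : ℝ) (hC : 0 ≤ C) (x₀ : ℕ)
    (hbt : ∀ x : ℕ, x₀ ≤ x → ∀ q c : ℕ, 1 ≤ q → q ^ 2 ≤ x →
      Nat.Coprime c q → (((Icc 1 x).filter fun p => p.Prime ∧ p % q = c % q).card : ℝ)
      ≤ C * x / (Nat.totient q * Real.log x))
    (hT : ∀ i, ∀ ℓ ∈ T i, ℓ.Prime ∧ ¬ ℓ ∣ D₀)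
    (hdis : ∀ i j, i ≠ j → Disjoint (T i) (T j)) (P₁ P₂ : Finset ℕ) (Dm N₂ : ℕ)
    (hP₁ : ∀ q ∈ P₁, q.Prime ∧ Dm < q)
    (hP₂ : ∀ q ∈ P₂, q.Prime ∧ Dm < q ∧ q ≤ N₂) (hN : x₀ ≤ N₂) (hDm : prj T ≤ Dm)
    (hN4 : Dm ^ 4 ≤ N₂) (hN1 : 1 ≤ N₂) (c : ℕ) :
    (((P₁ ×ˢ P₂).filter fun p => p.1 * p.2 % prj T = c % prj T).card : ℝ) ≤
      (((P₁ ×ˢ P₂).filter fun p => p.1 * p.2 % prj T = c % prj T ∧
        ∀ i, ∀ ℓ ∈ T i, ¬ ℓ ^ 2 ∣ D₀ * (p.1 * p.2) + 8 * sh i).card : ℝ)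
      + P₁.card * (C * N₂ / (Nat.totient (prj T) * Real.log N₂)) * ∑ i, ∑ ℓ ∈ T i, 1 / (ℓ : ℝ) := by
  have hT' : ∀ i, ∀ ℓ ∈ T i, ℓ.Prime := fun i ℓ h => (hT i ℓ h).1
  have hD0 := LOW_prj_pos hT'
  have hsub : ((P₁ ×ˢ P₂).filter fun p => p.1 * p.2 % prj T = c % prj T) ⊆
      ((P₁ ×ˢ P₂).filter fun p => p.1 * p.2 % prj T = c % prj T ∧
        ∀ i, ∀ ℓ ∈ T i, ¬ ℓ ^ 2 ∣ D₀ * (p.1 * p.2) + 8 * sh i) ∪
      (univ : Finset ι).biUnion fun i => (T i).biUnion fun ℓ => P₁.biUnion fun p =>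
        (P₂.filter fun q => p * q % prj T = c % prj T ∧
          ℓ ^ 2 ∣ D₀ * (p * q) + 8 * sh i).image fun q => (p, q) := by
    rintro ⟨p, q⟩ hpq
    rw [mem_filter, mem_product] at hpq
    obtain ⟨⟨h1, h2⟩, h3⟩ := hpq
    rw [mem_union, mem_filter, mem_product]
    by_cases h : ∀ i, ∀ ℓ ∈ T i, ¬ ℓ ^ 2 ∣ D₀ * (p * q) + 8 * sh i
    · exact Or.inl ⟨⟨h1, h2⟩, h3, h⟩
    · right
      push Not at h
      obtain ⟨i, ℓ, hℓ, h4⟩ := h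
      simp only [mem_biUnion, mem_image, mem_filter, mem_univ, true_and]
      exact ⟨i, ℓ, hℓ, p, h1, q, ⟨h2, h3, h4⟩, rfl⟩
  have h1 : (((P₁ ×ˢ P₂).filter fun p => p.1 * p.2 % prj T = c % prj T).card : ℝ) ≤
      (((P₁ ×ˢ P₂).filter fun p => p.1 * p.2 % prj T = c % prj T ∧
        ∀ i, ∀ ℓ ∈ T i, ¬ ℓ ^ 2 ∣ D₀ * (p.1 * p.2) + 8 * sh i).card : ℝ) +
      ∑ i, ∑ ℓ ∈ T i, ∑ p ∈ P₁, ((P₂.filter fun q => p * q % prj T = c % prj T ∧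
          ℓ ^ 2 ∣ D₀ * (p * q) + 8 * sh i).card : ℝ) := by
    have h2 := (card_le_card hsub).trans (card_union_le _ _)
    have h3 : ((univ : Finset ι).biUnion fun i => (T i).biUnion fun ℓ => P₁.biUnion fun p =>
        (P₂.filter fun q => p * q % prj T = c % prj T ∧
          ℓ ^ 2 ∣ D₀ * (p * q) + 8 * sh i).image fun q => (p, q)).card ≤
        ∑ i, ∑ ℓ ∈ T i, ∑ p ∈ P₁, (P₂.filter fun q => p * q % prj T = c % prj T ∧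
          ℓ ^ 2 ∣ D₀ * (p * q) + 8 * sh i).card := by
      refine card_biUnion_le.trans (sum_le_sum fun i _ => ?_)
      refine card_biUnion_le.trans (sum_le_sum fun ℓ _ => ?_)
      refine card_biUnion_le.trans (sum_le_sum fun p _ => ?_)
      exact card_image_le
    have h4 := h2.trans (Nat.add_le_add_left h3 _)
    have h5 : (((P₁ ×ˢ P₂).filter fun p => p.1 * p.2 % prj T = c % prj T).card : ℝ) ≤
      ((((P₁ ×ˢ P₂).filter fun p => p.1 * p.2 % prj T = c % prj T ∧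
        ∀ i, ∀ ℓ ∈ T i, ¬ ℓ ^ 2 ∣ D₀ * (p.1 * p.2) + 8 * sh i).card +
        ∑ i, ∑ ℓ ∈ T i, ∑ p ∈ P₁, (P₂.filter fun q => p * q % prj T = c % prj T ∧
          ℓ ^ 2 ∣ D₀ * (p * q) + 8 * sh i).card : ℕ) : ℝ) := Nat.cast_le.2 h4
    push_cast at h5
    exact h5
  refine h1.trans (add_le_add_right ?_ _)
  rw [mul_sum]
  refine sum_le_sum fun i _ => ?_
  rw [mul_sum]
  refine sum_le_sum fun ℓ hℓ => ?_
  have h2 : ∀ p ∈ P₁, ((P₂.filter fun q => p * q % prj T = c % prj T ∧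
          ℓ ^ 2 ∣ D₀ * (p * q) + 8 * sh i).card : ℝ) ≤
          C * N₂ / (Nat.totient (prj T) * Real.log N₂) * (1 / ℓ) := by
    intro p hp
    refine LOW_bad1 C hC x₀ hbt hT hdis P₂ Dm N₂ hP₂ hN hDm hN4 hN1 p c ?_ i ℓ hℓ
    exact (Nat.Prime.coprime_iff_not_dvd (hP₁ p hp).1).2 fun h => by
      have := Nat.le_of_dvd hD0 h
      have := (hP₁ p hp).2
      omega
  refine (sum_le_sum h2).trans (le_of_eq ?_)
  rw [sum_const, nsmul_eq_mul]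
  ring

end

end Pool.Agent.helper7.JT
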