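import Mathlib
import Pool.Agent.helper91.JT.LOW1

/-!
# Project JT (MP_ebc808_nt), module LOW: one dyadic scale, the inequality
-/

set_option autoImplicit false

open Finset

namespace Pool.Agent.helper7.JT

open OC (J hs cs PA P5 Exc)

lemma LOW_log_large (C : ℝ) : ∃ X₀ : ℕ, ∀ X : ℕ, X₀ ≤ X → C ≤ Real.log X := by
  have h := (Real.tendsto_log_atTop.comp tendsto_natCast_atTop_atTop).eventually_ge_atTop C
  obtain ⟨N, hN⟩ := Filter.eventually_atTop.1 h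
  exact ⟨N, fun X hX => hN X hX⟩

/-- the final numerical step -/
lemma LOW_final (c₀ C C' Λ S' E n₁ n₂ a x D₀ X good A err bad : ℝ) (hc₀ : 0 < c₀) (hC : 0 < C)
    (hC' : 0 < C') (hΛ : 0 < Λ) (hΛ1 : 32 * C / c₀ ≤ Λ) (hΛ2 : 16 * C' / c₀ ≤ Λ) (hE : 0 ≤ E)
    (hES : E / 2 ≤ S') (ha : 0 ≤ a) (hx : 0 ≤ x) (h1 : c₀ * a / Λ ≤ n₁) (h2 : c₀ * x / Λ ≤ n₂)
    (hD : 0 < D₀) (hX : X ≤ 8 * a * D₀ * x) (hX0 : 0 ≤ X)
    (hA : n₁ * n₂ * S' - err ≤ A) (herr : err ≤ C * (2 * E) * (2 * Λ / c₀ * (n₁ * n₂)) / Λ ^ 2)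
    (hbad : A ≤ good + bad)
    (hbad' : bad ≤ n₁ * (C' * (2 * x) / (Λ / 2)) * (1 / Λ) * S') :
    c₀ ^ 2 / 32 * (X / Λ ^ 2) / D₀ * E ≤ good := by
  have hn₁ : 0 ≤ n₁ := le_trans (by positivity) h1
  have hn₂ : 0 ≤ n₂ := le_trans (by positivity) h2
  have hS : 0 ≤ S' := by linarith
  have e1 : C / c₀ / Λ ≤ 1 / 32 := by
    rw [div_le_iff₀ hΛ]
    have : 32 * C / c₀ = 32 * (C / c₀) := by ring
    linarith
  have e2 : C' / c₀ / Λ ≤ 1 / 16 := by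
    rw [div_le_iff₀ hΛ]
    have : 16 * C' / c₀ = 16 * (C' / c₀) := by ring
    linarith
  have f1 : err ≤ n₁ * n₂ * S' / 4 := by
    refine herr.trans ?_
    have : C * (2 * E) * (2 * Λ / c₀ * (n₁ * n₂)) / Λ ^ 2 = 4 * (C / c₀ / Λ) * E * (n₁ * n₂) := by
      field_simp; ring
    rw [this]
    have h3 : 0 ≤ n₁ * n₂ := by positivity
    calc 4 * (C / c₀ / Λ) * E * (n₁ * n₂) ≤ 4 * (1 / 32) * E * (n₁ * n₂) := by gcongr
      _ ≤ 4 * (1 / 32) * (2 * S') * (n₁ * n₂) := by gcongr; linarith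
      _ = _ := by ring
  have hxn : x ≤ Λ / c₀ * n₂ := by
    rw [div_le_iff₀ hΛ] at h2
    rw [div_mul_eq_mul_div, le_div_iff₀ hc₀]
    linarith
  have f2 : bad ≤ n₁ * n₂ * S' / 4 := by
    refine hbad'.trans ?_
    calc n₁ * (C' * (2 * x) / (Λ / 2)) * (1 / Λ) * S'
        ≤ n₁ * (C' * (2 * (Λ / c₀ * n₂)) / (Λ / 2)) * (1 / Λ) * S' := by gcongr
      _ = 4 * (C' / c₀ / Λ) * (n₁ * n₂ * S') := by field_simp; ring
      _ ≤ 4 * (1 / 16) * (n₁ * n₂ * S') := by gcongr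
      _ = _ := by ring
  have f3 : n₁ * n₂ * S' / 2 ≤ good := by linarith
  refine le_trans ?_ f3
  have f4 : (c₀ * a / Λ) * (c₀ * x / Λ) ≤ n₁ * n₂ := mul_le_mul h1 h2 (by positivity) hn₁
  have f5 : X / (8 * D₀) ≤ a * x := by
    rw [div_le_iff₀ (by positivity)]
    linarith
  calc c₀ ^ 2 / 32 * (X / Λ ^ 2) / D₀ * E = c₀ ^ 2 / Λ ^ 2 * (X / (8 * D₀)) * (E / 4) := by
        field_simp; ring
    _ ≤ c₀ ^ 2 / Λ ^ 2 * (a * x) * (E / 4) := by gcongr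
    _ = ((c₀ * a / Λ) * (c₀ * x / Λ)) * (E / 4) := by field_simp
    _ ≤ n₁ * n₂ * (S' / 2) := by
        refine mul_le_mul f4 (by linarith) (by positivity) (by positivity)
    _ = _ := by ring

open Classical in
theorem LOW_j (k : ℕ) (hk : 3 ≤ k) (dmax : ℕ) : ∃ c₂ : ℝ, 0 < c₂ ∧ ∃ X₀ : ℕ, ∀ X : ℕ, X₀ ≤ X →
    ∀ (D₀ b Dm : ℕ) {ι : Type} [Fintype ι] [DecidableEq ι] (L : ι → Finset ℕ) (K : ι → ℕ)
    (sh : ι → ℕ) (c : ℕ → ℕ) (j : ℕ),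
    1 ≤ D₀ → b % 2 = 1 → (∀ i, 1 ≤ sh i ∧ sh i ≤ dmax) → D₀ ≤ Dm → Dm ^ 32 ≤ X →
    (∀ T ∈ Famj L K, prj T ≤ Dm) →
    (∀ i, ∀ ℓ ∈ L i, ℓ.Prime ∧ ¬ ℓ ∣ D₀ ∧ (Real.log X) ^ (1600 : ℝ) ≤ ℓ) →
    (∀ i j, i ≠ j → Disjoint (L i) (L j)) →
    (∀ i, (K i : ℝ) ≤ (Real.log X) ^ 10 * hs (L i)) → ∑ i, (K i : ℝ) ≤ Real.log X →
    EMj L K / 2 ≤ ∑ T' ∈ Famj L K, 1 / (prj T' : ℝ) →
    (∀ T ∈ Famj L K, Nat.Coprime (c (prj T)) (prj T) ∧
      ∀ i, ∀ ℓ ∈ T i, ℓ ∣ D₀ * c (prj T) + 8 * sh i) →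
    Nat.log 2 X / 4 ≤ j → j < Nat.log 2 X / 3 →
    c₂ * (X / (Real.log X) ^ 2) / D₀ * EMj L K ≤ ∑ T ∈ Famj L K,
      (((PP1 (2 ^ k) j ×ˢ PP2 X D₀ (2 ^ k) b j).filter fun p => p.1 * p.2 % prj T = c (prj T) % prj T ∧
        ∀ i, ∀ ℓ ∈ T i, ¬ ℓ ^ 2 ∣ D₀ * (p.1 * p.2) + 8 * sh i).card : ℝ) := by
  obtain ⟨C, hC, hB⟩ := bilinear
  obtain ⟨C', hC', x₁, hbt⟩ := bt_gen
  obtain ⟨c₀, x₀, hc₀, hP⟩ := OC.primes_ap_unif (2 ^ k) (by positivity)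
  obtain ⟨X₁, hnum⟩ := LOW_num (x₀ + x₁ + 2)
  obtain ⟨X₂, hlog⟩ := LOW_log_large (max (max (32 * C / c₀) (16 * C' / c₀)) (8 * dmax + 10))
  refine ⟨c₀ ^ 2 / 32, by positivity, max X₁ X₂ + 1,
    fun X hX D₀ b Dm ι _ _ L K sh c j hD₀ hb hsh hDm h32 hprj hL hdis hK hKs hEM hc hj1 hj2 => ?_⟩
  have hX1 : X₁ ≤ X := (le_max_left X₁ X₂).trans (by omega)
  have hX2 : X₂ ≤ X := (le_max_right X₁ X₂).trans (by omega)
  have hX0 : 1 ≤ X := by omega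
  obtain ⟨n1, n2, n3, n4, n5, n6, n7, n8⟩ := hnum X hX1 D₀ Dm j hD₀ hDm h32 hj1 hj2
  have hΛ := hlog X hX2
  set Λ := Real.log X with hΛdef
  have hΛ1 : 32 * C / c₀ ≤ Λ := (le_max_left _ _).trans ((le_max_left _ _).trans hΛ)
  have hΛ2 : 16 * C' / c₀ ≤ Λ := (le_max_right _ _).trans ((le_max_left _ _).trans hΛ)
  have hΛ3 : (8 * dmax + 10 : ℝ) ≤ Λ := (le_max_right _ _).trans hΛ
  have hΛ4 : (10 : ℝ) ≤ Λ := le_trans (by have : (0:ℝ) ≤ dmax := Nat.cast_nonneg _; linarith) hΛ3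
  have hΛ0 : 0 < Λ := by linarith
  have hpw : ∀ m : ℕ, m ≤ 1600 → Λ ^ m ≤ Λ ^ (1600 : ℝ) := by
    intro m hm
    rw [← Real.rpow_natCast]
    exact Real.rpow_le_rpow_of_exponent_le (by linarith) (by exact_mod_cast hm)
  -- properties of the tuples
  have hLT : ∀ T ∈ Famj L K, ∀ i, ∀ ℓ ∈ T i, ℓ.Prime ∧ ¬ ℓ ∣ D₀ ∧ Λ ^ (1600 : ℝ) ≤ ℓ := by
    intro T hT i ℓ hℓ
    exact hL i ℓ ((LOW_mem.1 hT i).1 hℓ)
  have hTdis : ∀ T ∈ Famj L K, ∀ i j, i ≠ j → Disjoint (T i) (T j) := by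
    intro T hT i j hij
    rw [LOW_mem] at hT
    exact (hdis i j hij).mono (hT i).1 (hT j).1
  set x := X / (2 ^ (j + 2) * D₀) with hx
  set P₁ := PP1 (2 ^ k) j with hP₁
  set P₂ := PP2 X D₀ (2 ^ k) b j with hP₂
  have hP₁m : ∀ q ∈ P₁, q.Prime ∧ Dm < q ∧ q ≤ 2 * 2 ^ j := by
    intro q hq
    rw [hP₁, PP1, mem_filter, mem_Ioc] at hq
    exact ⟨hq.2.1, lt_of_le_of_lt n4 hq.1.1, hq.1.2⟩
  have hDm1 : 1 ≤ Dm := hD₀.trans hDm
  have hDmx : Dm ^ 4 ≤ x := by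
    have : (Dm ^ 4) ^ 2 ≤ x ^ 2 := by
      refine le_trans ?_ n3
      refine le_trans ?_ h32
      rw [← pow_mul]
      exact Nat.pow_le_pow_right hDm1 (by norm_num)
    exact (pow_le_pow_iff_left₀ (by positivity) (by positivity) (by norm_num)).1 this
  have hDmx1 : Dm ≤ x := le_trans (by
    calc Dm = Dm ^ 1 := (pow_one _).symm
      _ ≤ Dm ^ 4 := Nat.pow_le_pow_right hDm1 (by norm_num)) hDmx
  have hDmx2 : Dm ^ 2 ≤ x := le_trans (Nat.pow_le_pow_right hDm1 (by norm_num)) hDmx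
  have hP₂m : ∀ q ∈ P₂, q.Prime ∧ Dm < q ∧ q ≤ 2 * x := by
    intro q hq
    rw [hP₂, PP2, mem_filter, mem_Ioc] at hq
    exact ⟨hq.2.1, lt_of_le_of_lt hDmx1 hq.1.1, hq.1.2⟩
  have hcop : ∀ b : ℕ, b % 2 = 1 → Nat.Coprime b (2 ^ k) := fun b hb =>
    Nat.Coprime.pow_right k (Nat.coprime_two_right.2 (Nat.odd_iff.2 hb))
  have hlog1 : ∀ y : ℕ, 2 ≤ y → y ≤ X → 0 < Real.log y ∧ Real.log y ≤ Λ := by
    intro y hy hyX
    constructor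
    · exact Real.log_pos (by exact_mod_cast hy)
    · exact Real.log_le_log (by exact_mod_cast (by omega : 0 < y)) (by exact_mod_cast hyX)
  have hxX : x ≤ X := Nat.div_le_self _ _
  have h2jX : 2 ^ j ≤ X := by
    calc 2 ^ j ≤ 2 * 2 ^ j := by omega
      _ = (2 * 2 ^ j) ^ 1 := (pow_one _).symm
      _ ≤ (2 * 2 ^ j) ^ 3 := Nat.pow_le_pow_right (by positivity) (by norm_num)
      _ ≤ X := n6
  have hc1 : c₀ * (2 ^ j : ℕ) / Λ ≤ (P₁.card : ℝ) := by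
    obtain ⟨l1, l2⟩ := hlog1 (2 ^ j) (by omega) h2jX
    refine le_trans ?_ (hP 5 (hcop 5 (by norm_num)) (2 ^ j) (by omega))
    exact div_le_div_of_nonneg_left (by positivity) l1 l2
  have hc2 : c₀ * (x : ℝ) / Λ ≤ (P₂.card : ℝ) := by
    obtain ⟨l1, l2⟩ := hlog1 x (by omega) hxX
    refine le_trans ?_ (hP b (hcop b hb) x (by omega))
    exact div_le_div_of_nonneg_left (by positivity) l1 l2
  -- the bilinear estimate
  set q₀ := ⌈Λ ^ (1600 : ℝ)⌉₊ with hq₀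
  have hq₀1 : 1 ≤ q₀ := Nat.one_le_ceil_iff.2 (by positivity)
  have hinj : Set.InjOn prj (Famj L K : Set (ι → Finset ℕ)) := by
    intro T hT T' hT' h
    exact LOW_inj (fun i ℓ hℓ => (hL i ℓ hℓ).1) hdis hT hT' h
  have hE0 : 0 ≤ EMj L K := by
    unfold EMj hs
    exact prod_nonneg fun i _ => div_nonneg (pow_nonneg (sum_nonneg fun _ _ => by positivity) _)
      (Nat.cast_nonneg _)
  have hbil := hB ((Famj L K).image prj) P₁ P₂ (2 * 2 ^ j) (2 * x) q₀ Dm (2 * EMj L K) c hq₀1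
    (by positivity) (by
      intro D hD
      obtain ⟨T, hT, rfl⟩ := mem_image.1 hD
      exact ⟨LOW_prj_pos fun i ℓ hℓ => (hLT T hT i ℓ hℓ).1, hprj T hT, (hc T hT).1⟩)
    hP₁m hP₂m n5 (hDmx2.trans (by omega)) (by
      intro D hD q hqD hq
      obtain ⟨T, hT, rfl⟩ := mem_image.1 hD
      obtain ⟨p, hp, hpq⟩ := Nat.exists_prime_and_dvd (show q ≠ 1 by omega)
      obtain ⟨i, hi⟩ := (LOW_dvd_prj (fun i ℓ hℓ => (hLT T hT i ℓ hℓ).1) hp).1 (hpq.trans hqD)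
      have h1 := (hLT T hT i p hi).2.2
      have h2 : q₀ ≤ p := Nat.ceil_le.2 h1
      exact h2.trans (Nat.le_of_dvd (by omega) hpq)) (by
      intro q hq
      have h1 := G_bound L K (Λ ^ 10) (by
        calc (2 : ℝ) ≤ 10 ^ 10 := by norm_num
          _ ≤ Λ ^ 10 := by gcongr) (fun i ℓ hℓ => ⟨(hL i ℓ hℓ).1, by
            rw [← pow_mul]
            exact (hpw 40 (by norm_num)).trans (hL i ℓ hℓ).2.2⟩) hdis hK (hKs.trans (by
              calc Λ = Λ ^ 1 := (pow_one _).symm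
                _ ≤ Λ ^ 10 := pow_le_pow_right₀ (by linarith) (by norm_num))) q hq
      rw [filter_image, sum_image (by
        intro T hT T' hT' h
        exact hinj (mem_filter.1 hT).1 (mem_filter.1 hT').1 h)]
      exact h1)
  rw [sum_image (by intro T hT T' hT' h; exact hinj hT hT' h)] at hbil
  -- assemble
  set Sg := ∑ T ∈ Famj L K, 1 / (Nat.totient (prj T) : ℝ) with hSg
  have hES : EMj L K / 2 ≤ Sg := by
    refine hEM.trans (sum_le_sum fun T hT => ?_)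
    have h1 := LOW_prj_pos fun i ℓ hℓ => (hLT T hT i ℓ hℓ).1
    have h2 : 0 < Nat.totient (prj T) := Nat.totient_pos.2 h1
    exact one_div_le_one_div_of_le (by exact_mod_cast h2) (by exact_mod_cast Nat.totient_le _)
  have hx0 : (0 : ℝ) ≤ x := Nat.cast_nonneg _
  have hlogN : Λ / 2 ≤ Real.log ((2 * x : ℕ) : ℝ) := by
    have h1 : (X : ℝ) ≤ ((2 * x : ℕ) : ℝ) ^ 2 := by
      have : X ≤ (2 * x) ^ 2 := n3.trans (Nat.pow_le_pow_left (by omega) 2)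
      exact_mod_cast this
    have h2 := Real.log_le_log (by exact_mod_cast hX0) h1
    rw [Real.log_pow] at h2
    push_cast at h2 ⊢
    linarith
  refine LOW_final c₀ C C' Λ Sg (EMj L K) P₁.card P₂.card ((2 ^ j : ℕ) : ℝ) x D₀ X _
    (∑ T ∈ Famj L K, (((P₁ ×ˢ P₂).filter fun p => p.1 * p.2 % prj T = c (prj T) % prj T).card : ℝ))
    (C * (2 * EMj L K) * √((2 * 2 ^ j : ℕ) * (2 * x : ℕ) * P₁.card * P₂.card) / √q₀)
    (∑ T ∈ Famj L K, P₁.card * (C' * ((2 * x : ℕ) : ℝ) / (Nat.totient (prj T) *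
      Real.log ((2 * x : ℕ) : ℝ))) * ∑ i, ∑ ℓ ∈ T i, 1 / (ℓ : ℝ))
    hc₀ hC hC' hΛ0 hΛ1 hΛ2 hE0 hES (Nat.cast_nonneg _) hx0 hc1 hc2 (by exact_mod_cast hD₀) ?_
    (Nat.cast_nonneg _) ?_ ?_ ?_ ?_
  · refine n8.trans (le_of_eq ?_)
    push_cast
    ring
  · have h1 : ∑ T ∈ Famj L K, ((P₁.card : ℝ) * P₂.card / Nat.totient (prj T) -
        (((P₁ ×ˢ P₂).filter fun p => p.1 * p.2 % prj T = c (prj T) % prj T).card : ℝ)) ≤
        ∑ T ∈ Famj L K, |(((P₁ ×ˢ P₂).filter fun p => p.1 * p.2 % prj T = c (prj T) % prj T).card : ℝ)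
          - P₁.card * P₂.card / Nat.totient (prj T)| := by
      refine sum_le_sum fun T _ => ?_
      rw [abs_sub_comm]
      exact le_abs_self _
    rw [sum_sub_distrib] at h1
    have h2 : ∑ T ∈ Famj L K, ((P₁.card : ℝ) * P₂.card / Nat.totient (prj T)) =
        P₁.card * P₂.card * Sg := by
      rw [hSg, mul_sum]
      refine sum_congr rfl fun T _ => ?_
      ring
    rw [h2] at h1
    linarith
  · -- the square root
    have hq₀2 : Λ ^ 4 ≤ (q₀ : ℝ) := (hpw 4 (by norm_num)).trans (Nat.le_ceil _)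
    have hq₀3 : Λ ^ 2 ≤ √q₀ := by
      rw [show Λ ^ 2 = √(Λ ^ 4) by
        rw [show Λ ^ 4 = (Λ ^ 2) ^ 2 by ring, Real.sqrt_sq (by positivity)]]
      exact Real.sqrt_le_sqrt hq₀2
    have h1 : √((2 * 2 ^ j : ℕ) * (2 * x : ℕ) * P₁.card * P₂.card) ≤
        2 * Λ / c₀ * (P₁.card * P₂.card) := by
      rw [show 2 * Λ / c₀ * ((P₁.card : ℝ) * P₂.card) =
        √((2 * Λ / c₀ * (P₁.card * P₂.card)) ^ 2) by rw [Real.sqrt_sq (by positivity)]]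
      refine Real.sqrt_le_sqrt ?_
      have g1 : ((2 ^ j : ℕ) : ℝ) ≤ Λ / c₀ * P₁.card := by
        rw [div_le_iff₀ hΛ0] at hc1
        rw [div_mul_eq_mul_div, le_div_iff₀ hc₀]
        linarith
      have g2 : (x : ℝ) ≤ Λ / c₀ * P₂.card := by
        rw [div_le_iff₀ hΛ0] at hc2
        rw [div_mul_eq_mul_div, le_div_iff₀ hc₀]
        linarith
      calc ((2 * 2 ^ j : ℕ) : ℝ) * ((2 * x : ℕ) : ℝ) * P₁.card * P₂.card
          = 4 * ((2 ^ j : ℕ) : ℝ) * x * (P₁.card * P₂.card) := by push_cast; ring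
        _ ≤ 4 * (Λ / c₀ * P₁.card) * (Λ / c₀ * P₂.card) * (P₁.card * P₂.card) := by gcongr
        _ = (2 * Λ / c₀ * (P₁.card * P₂.card)) ^ 2 := by ring
    gcongr
  · rw [← sum_add_distrib]
    refine sum_le_sum fun T hT => ?_
    refine LOW_bad C' hC'.le x₁ hbt (fun i ℓ hℓ => ⟨(hLT T hT i ℓ hℓ).1, (hLT T hT i ℓ hℓ).2.1⟩)
      (hTdis T hT) P₁ P₂ Dm (2 * x) (fun q hq => ⟨(hP₁m q hq).1, (hP₁m q hq).2.1⟩) hP₂m (by omega)
      (hprj T hT) (by omega) (by omega) _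
  · rw [hSg, mul_sum]
    refine sum_le_sum fun T hT => ?_
    have h1 : ∑ i, ∑ ℓ ∈ T i, 1 / (ℓ : ℝ) ≤ 1 / Λ := by
      calc ∑ i, ∑ ℓ ∈ T i, 1 / (ℓ : ℝ) ≤ ∑ i, ∑ ℓ ∈ T i, 1 / Λ ^ 2 := by
            refine sum_le_sum fun i _ => sum_le_sum fun ℓ hℓ => ?_
            exact one_div_le_one_div_of_le (by positivity)
              ((hpw 2 (by norm_num)).trans (hLT T hT i ℓ hℓ).2.2)
        _ = (∑ i, (K i : ℝ)) * (1 / Λ ^ 2) := by
            rw [sum_mul]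
            refine sum_congr rfl fun i _ => ?_
            rw [sum_const, nsmul_eq_mul, (LOW_mem.1 hT i).2]
        _ ≤ Λ * (1 / Λ ^ 2) := by gcongr
        _ = 1 / Λ := by field_simp
    have h2 : 0 < Nat.totient (prj T) :=
      Nat.totient_pos.2 (LOW_prj_pos fun i ℓ hℓ => (hLT T hT i ℓ hℓ).1)
    have h3 : (0 : ℝ) < Nat.totient (prj T) := by exact_mod_cast h2
    calc P₁.card * (C' * ((2 * x : ℕ) : ℝ) / (Nat.totient (prj T) *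
        Real.log ((2 * x : ℕ) : ℝ))) * ∑ i, ∑ ℓ ∈ T i, 1 / (ℓ : ℝ)
        ≤ P₁.card * (C' * ((2 * x : ℕ) : ℝ) / (Nat.totient (prj T) * (Λ / 2))) * (1 / Λ) := by
          gcongr
      _ = P₁.card * (C' * (2 * x) / (Λ / 2)) * (1 / Λ) * (1 / Nat.totient (prj T)) := by
          push_cast
          field_simp

end Pool.Agent.helper7.JT
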