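import Mathlib
import Pool.Agent.helper91.JT.LOW2

/-!
# Project JT (MP_ebc808_nt), module LOW: the lower bound on average
-/

set_option autoImplicit false

open Finset

namespace Pool.Agent.helper7.JT

open OC (J hs cs PA P5 Exc)

/-- two factorizations -/
lemma LOW_factor {p q p' q' : ℕ} (hp : p.Prime) (hq : q.Prime) (hp' : p'.Prime) (hq' : q'.Prime)
    (h1 : p < q') (h : p * q = p' * q') : p = p' ∧ q = q' := by
  have h2 : p ∣ p' * q' := ⟨q, h.symm⟩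
  rcases (Nat.Prime.dvd_mul hp).1 h2 with h3 | h3
  · have h4 := (Nat.prime_dvd_prime_iff_eq hp hp').1 h3
    subst h4
    exact ⟨rfl, Nat.eq_of_mul_eq_mul_left hp.pos h⟩
  · have h4 := (Nat.prime_dvd_prime_iff_eq hp hq').1 h3
    omega

lemma LOW_dyad {j j' p : ℕ} (h1 : 2 ^ j < p) (h2 : p ≤ 2 * 2 ^ j) (h3 : 2 ^ j' < p)
    (h4 : p ≤ 2 * 2 ^ j') : j = j' := by
  rcases Nat.lt_trichotomy j j' with h | h | h
  · have : 2 ^ (j + 1) ≤ 2 ^ j' := Nat.pow_le_pow_right (by norm_num) h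
    rw [pow_succ] at this
    omega
  · exact h
  · have : 2 ^ (j' + 1) ≤ 2 ^ j := Nat.pow_le_pow_right (by norm_num) h
    rw [pow_succ] at this
    omega

lemma LOW_count (X : ℕ) (hX : 1 ≤ X) (h : 100 ≤ Real.log X) :
    Real.log X / 24 ≤ ((Ico (Nat.log 2 X / 4) (Nat.log 2 X / 3)).card : ℝ) := by
  rw [Nat.card_Ico]
  set L := Nat.log 2 X with hL
  have h1 : (X : ℝ) ≤ (2 : ℝ) ^ (L + 1) := by
    have := (Nat.lt_pow_succ_log_self (b := 2) (by norm_num) X).le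
    exact_mod_cast this
  have h2 := Real.log_le_log (by exact_mod_cast hX) h1
  rw [Real.log_pow] at h2
  have h3 := Real.log_two_lt_d9
  push_cast at h2
  have h4 : Real.log X ≤ (L + 1) * 0.7 := h2.trans (by
    have : (0 : ℝ) ≤ L := Nat.cast_nonneg _
    nlinarith)
  have h5 : (L : ℝ) - 8 ≤ 12 * ((L / 3 - L / 4 : ℕ) : ℝ) := by
    have : L ≤ 12 * (L / 3 - L / 4) + 8 := by omega
    have h6 : (L : ℝ) ≤ ((12 * (L / 3 - L / 4) + 8 : ℕ) : ℝ) := by exact_mod_cast this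
    push_cast at h6
    linarith
  nlinarith

theorem low1 (k : ℕ) (hk : 3 ≤ k) (dmax : ℕ) : ∃ c₁ : ℝ, 0 < c₁ ∧ ∃ X₀ : ℕ, ∀ X : ℕ, X₀ ≤ X →
    ∀ (D₀ b : ℕ) {ι : Type} [Fintype ι] [DecidableEq ι] (L : ι → Finset ℕ) (K : ι → ℕ) (sh : ι → ℕ),
    1 ≤ D₀ → b % 2 = 1 → (∀ i, 1 ≤ sh i ∧ sh i ≤ dmax) →
    (∀ T' ∈ Famj L K, (D₀ * prj T') ^ 32 ≤ X) →
    (∀ i, ∀ ℓ ∈ L i, ℓ.Prime ∧ ¬ ℓ ∣ D₀ ∧ (Real.log X) ^ (1600 : ℝ) ≤ ℓ) →
    (∀ i j, i ≠ j → Disjoint (L i) (L j)) →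
    (∀ i, (K i : ℝ) ≤ (Real.log X) ^ 10 * hs (L i)) → ∑ i, (K i : ℝ) ≤ Real.log X →
    EMj L K / 2 ≤ ∑ T' ∈ Famj L K, 1 / (prj T' : ℝ) →
    c₁ * (X / Real.log X) / D₀ * EMj L K ≤ ∑ T' ∈ Famj L K, ((OmJ X D₀ (2 ^ k) b sh T').card : ℝ) := by
  classical
  obtain ⟨c₂, hc₂, X₁, hj⟩ := LOW_j k hk dmax
  obtain ⟨X₂, hlog⟩ := LOW_log_large (8 * dmax + 100)
  obtain ⟨X₃, hnum⟩ := LOW_num 1
  refine ⟨c₂ / 24, by positivity, X₁ + X₂ + X₃ + 1,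
    fun X hX D₀ b ι _ _ L K sh hD₀ hb hsh h32 hL hdis hK hKs hEM => ?_⟩
  have hΛ := hlog X (by omega)
  have hd0 : (0 : ℝ) ≤ dmax := Nat.cast_nonneg _
  have hE0 : 0 ≤ EMj L K := by
    unfold EMj hs
    exact prod_nonneg fun i _ => div_nonneg (pow_nonneg (sum_nonneg fun _ _ => by positivity) _)
      (Nat.cast_nonneg _)
  have hLT : ∀ T ∈ Famj L K, ∀ i, ∀ ℓ ∈ T i, ℓ.Prime ∧ ¬ ℓ ∣ D₀ ∧
      (Real.log X) ^ (1600 : ℝ) ≤ ℓ := by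
    intro T hT i ℓ hℓ
    exact hL i ℓ ((LOW_mem.1 hT i).1 hℓ)
  have hTdis : ∀ T ∈ Famj L K, ∀ i j, i ≠ j → Disjoint (T i) (T j) := by
    intro T hT i j hij
    rw [LOW_mem] at hT
    exact (hdis i j hij).mono (hT i).1 (hT j).1
  rcases (Famj L K).eq_empty_or_nonempty with hne | hne
  · rw [hne, sum_empty] at hEM ⊢
    have : EMj L K = 0 := le_antisymm (by linarith) hE0
    rw [this, mul_zero]
  -- the maximal modulus
  obtain ⟨T₀, hT₀, hmax⟩ := Finset.exists_mem_eq_sup (Famj L K) hne (fun T => D₀ * prj T)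
  set Dm := (Famj L K).sup (fun T => D₀ * prj T) with hDmdef
  have hle : ∀ T ∈ Famj L K, D₀ * prj T ≤ Dm := fun T hT =>
    Finset.le_sup (f := fun T => D₀ * prj T) hT
  have hpos : ∀ T ∈ Famj L K, 0 < prj T := fun T hT =>
    LOW_prj_pos fun i ℓ hℓ => (hLT T hT i ℓ hℓ).1
  have hDm32 : Dm ^ 32 ≤ X := by rw [hmax]; exact h32 T₀ hT₀
  have hD₀m : D₀ ≤ Dm := (Nat.le_mul_of_pos_right D₀ (hpos T₀ hT₀)).trans (hle T₀ hT₀)
  have hprj : ∀ T ∈ Famj L K, prj T ≤ Dm := fun T hT =>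
    (Nat.le_mul_of_pos_left _ hD₀).trans (hle T hT)
  -- the classes
  have hcl : ∀ D : ℕ, ∃ c : ℕ, ∀ T ∈ Famj L K, prj T = D → Nat.Coprime c (prj T) ∧
      ∀ i, ∀ ℓ ∈ T i, ℓ ∣ D₀ * c + 8 * sh i := by
    intro D
    by_cases h : ∃ T ∈ Famj L K, prj T = D
    · obtain ⟨T, hT, hTD⟩ := h
      obtain ⟨c, h1, h2⟩ := LOW_class (D₀ := D₀) (sh := sh) (T := T) (by
        intro i ℓ hℓ
        obtain ⟨g1, g2, g3⟩ := hLT T hT i ℓ hℓ
        refine ⟨g1, g2, ?_⟩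
        have g4 : Real.log X ≤ (Real.log X) ^ (1600 : ℝ) := by
          calc Real.log X = (Real.log X) ^ (1 : ℝ) := (Real.rpow_one _).symm
            _ ≤ _ := Real.rpow_le_rpow_of_exponent_le (by linarith) (by norm_num)
        have g5 : (sh i : ℝ) ≤ dmax := by exact_mod_cast (hsh i).2
        have g6 : ((8 * sh i : ℕ) : ℝ) < ℓ := by push_cast; linarith
        exact_mod_cast g6) (fun i => (hsh i).1) (hTdis T hT)
      refine ⟨c, fun T' hT' h' => ?_⟩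
      have : T' = T := LOW_inj (fun i ℓ hℓ => (hL i ℓ hℓ).1) hdis hT' hT (h'.trans hTD.symm)
      subst this
      exact ⟨h1, h2⟩
    · exact ⟨0, fun T hT hTD => absurd ⟨T, hT, hTD⟩ h⟩
  choose c hc using hcl
  -- sum over the scales
  have hper : ∀ j ∈ Ico (Nat.log 2 X / 4) (Nat.log 2 X / 3),
      c₂ * (X / (Real.log X) ^ 2) / D₀ * EMj L K ≤ ∑ T ∈ Famj L K,
      (((PP1 (2 ^ k) j ×ˢ PP2 X D₀ (2 ^ k) b j).filter fun p => p.1 * p.2 % prj T = c (prj T) % prj T ∧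
        ∀ i, ∀ ℓ ∈ T i, ¬ ℓ ^ 2 ∣ D₀ * (p.1 * p.2) + 8 * sh i).card : ℝ) := by
    intro j hjj
    rw [mem_Ico] at hjj
    exact hj X (by omega) D₀ b Dm L K sh c j hD₀ hb hsh hD₀m hDm32 hprj hL hdis hK hKs hEM
      (fun T hT => hc (prj T) T hT rfl) hjj.1 hjj.2
  have hsum := sum_le_sum hper
  rw [sum_const, nsmul_eq_mul, sum_comm] at hsum
  have hcount := LOW_count X (by omega) (by linarith)
  have hΛ0 : 0 < Real.log X := by linarith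
  have hfirst : c₂ / 24 * (X / Real.log X) / D₀ * EMj L K ≤
      ((Ico (Nat.log 2 X / 4) (Nat.log 2 X / 3)).card : ℝ) *
        (c₂ * (X / (Real.log X) ^ 2) / D₀ * EMj L K) := by
    calc c₂ / 24 * (X / Real.log X) / D₀ * EMj L K
        = Real.log X / 24 * (c₂ * (X / (Real.log X) ^ 2) / D₀ * EMj L K) := by
          field_simp
      _ ≤ _ := by gcongr
  refine hfirst.trans (hsum.trans (sum_le_sum fun T hT => ?_))
  -- the injection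
  have hD0r : 1 ≤ D₀ := hD₀
  rw [← Nat.cast_sum, ← card_sigma]
  refine Nat.cast_le.2 ?_
  refine card_le_card_of_injOn (fun x : (Σ _ : ℕ, ℕ × ℕ) => x.2.1 * x.2.2) ?_ ?_
  · rintro ⟨j, p, q⟩ hx
    rw [mem_coe, mem_sigma, mem_filter] at hx
    obtain ⟨h1, h2, h3, h4⟩ := hx
    rw [mem_coe, OmJ, mem_filter, mem_biUnion]
    refine ⟨⟨j, h1, mem_image.2 ⟨(p, q), h2, rfl⟩⟩, fun i ℓ hℓ => ⟨?_, h4 i ℓ hℓ⟩⟩
    exact LOW_of_mod (fun i ℓ hℓ => (hLT T hT i ℓ hℓ).1) (hc (prj T) T hT rfl).2 h3 i ℓ hℓ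
  · rintro ⟨j, p, q⟩ hx ⟨j', p', q'⟩ hx' heq
    rw [mem_coe, mem_sigma, mem_filter, mem_product] at hx hx'
    obtain ⟨h1, ⟨h2, h3⟩, -, -⟩ := hx
    obtain ⟨h1', ⟨h2', h3'⟩, -, -⟩ := hx'
    simp only [PP1, PP2, mem_filter, mem_Ioc, mem_Ico] at h1 h2 h3 h1' h2' h3'
    obtain ⟨-, -, -, -, -, n6, -, -⟩ := hnum X (by omega) D₀ Dm j hD₀ hD₀m hDm32 h1.1 h1.2
    obtain ⟨-, -, n3, -, -, -, n7, -⟩ := hnum X (by omega) D₀ Dm j' hD₀ hD₀m hDm32 h1'.1 h1'.2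
    have hlt : 2 * 2 ^ j ≤ X / (2 ^ (j' + 2) * D₀) := by
      have h5 : (2 * 2 ^ j) ^ 3 ≤ (X / (2 ^ (j' + 2) * D₀)) ^ 3 := by
        refine n6.trans (n3.trans ?_)
        exact Nat.pow_le_pow_right n7 (by norm_num)
      exact (pow_le_pow_iff_left₀ (by positivity) (by positivity) (by norm_num)).1 h5
    have h6 : p < q' := lt_of_le_of_lt (h2.1.2.trans hlt) h3'.1.1
    obtain ⟨e1, e2⟩ := LOW_factor h2.2.1 h3.2.1 h2'.2.1 h3'.2.1 h6 heq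
    subst e1 e2
    have := LOW_dyad h2.1.1 h2.1.2 h2'.1.1 h2'.1.2
    subst this
    rfl

end Pool.Agent.helper7.JT
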